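import Mathlib
import Pool.Agent.Helper912.ZDefs

set_option autoImplicit false

open MeasureTheory Set

noncomputable section

namespace Pool.Agent.Helper519.CTH

/-- sign of the position `i` in a block of length `M` -/
def sg (M i : ℕ) : ℝ := if i < M / 2 then 1 else -1

/-- the discrete kernel at scale `2^j` -/
def Kd (j : ℕ) (m : ℤ) : ℝ :=
  ((8:ℝ) ^ j)⁻¹ * ∑ a ∈ Finset.range (2 ^ j), ∑ b ∈ Finset.range (2 ^ j),
    ∑ c ∈ Finset.range (2 ^ j), sg (2 ^ j) a * sg (2 ^ j) b * sg (2 ^ j) c *
      ((if (a:ℤ) + b + c = m + 2 * 2 ^ j then 1 else 0) +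
        (if (a:ℤ) + b + c = m + 2 ^ j then 1 else 0))

/-- `x|x|/4` -/
def q (x : ℝ) : ℝ := x * |x| / 4

/-- the spline -/
def phi (u : ℝ) : ℝ :=
  q (u + 2) - 6 * q (u + 3/2) + 16 * q (u + 1) - 26 * q (u + 1/2) + 30 * q u
    - 26 * q (u - 1/2) + 16 * q (u - 1) - 6 * q (u - 3/2) + q (u - 2)

theorem q_neg (x : ℝ) : q (-x) = - q x := by
  unfold q
  rw [abs_neg]; ring

theorem q_cont : Continuous q := by
  unfold q
  fun_prop

theorem phi_cont : Continuous phi := by
  have := q_cont
  unfold phi
  fun_prop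

theorem phi_odd (u : ℝ) : phi (-u) = - phi u := by
  unfold phi
  rw [show -u + 2 = -(u - 2) by ring, show -u + 3/2 = -(u - 3/2) by ring,
    show -u + 1 = -(u - 1) by ring, show -u + 1/2 = -(u - 1/2) by ring,
    show -u - 1/2 = -(u + 1/2) by ring, show -u - 1 = -(u + 1) by ring,
    show -u - 3/2 = -(u + 3/2) by ring, show -u - 2 = -(u + 2) by ring]
  simp only [q_neg]
  ring

theorem phi_supp' (u : ℝ) (hu : 2 ≤ u) : phi u = 0 := by
  unfold phi q
  rw [abs_of_nonneg (by linarith : (0:ℝ) ≤ u + 2), abs_of_nonneg (by linarith : (0:ℝ) ≤ u + 3/2),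
    abs_of_nonneg (by linarith : (0:ℝ) ≤ u + 1), abs_of_nonneg (by linarith : (0:ℝ) ≤ u + 1/2),
    abs_of_nonneg (by linarith : (0:ℝ) ≤ u), abs_of_nonneg (by linarith : (0:ℝ) ≤ u - 1/2),
    abs_of_nonneg (by linarith : (0:ℝ) ≤ u - 1), abs_of_nonneg (by linarith : (0:ℝ) ≤ u - 3/2),
    abs_of_nonneg (by linarith : (0:ℝ) ≤ u - 2)]
  ring

theorem phi_supp (u : ℝ) (hu : 2 ≤ |u|) : phi u = 0 := by
  rcases le_abs.1 hu with h | h
  · exact phi_supp' u h
  · have := phi_supp' (-u) h
    rw [phi_odd] at this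
    linarith

/-- integral of `|x - c| / 2` -/
theorem abs_int (c α β : ℝ) : ∫ x in α..β, |x - c| / 2 = q (β - c) - q (α - c) := by
  refine MeasureTheory.integral_eq_of_hasDerivAt_off_countable (fun x => q (x - c)) _
    (Set.countable_singleton c) (q_cont.comp (by fun_prop)).continuousOn ?_
    (Continuous.intervalIntegrable (by fun_prop) _ _)
  intro x hx
  have hxc : x - c ≠ 0 := sub_ne_zero.2 fun h => hx.2 (by simpa using h)
  have h0 : HasDerivAt (fun x : ℝ => x - c) 1 x := (hasDerivAt_id x).sub_const c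
  have h1 := (hasDerivAt_abs hxc).comp x h0
  have h2 := (h0.mul h1).div_const 4
  refine h2.congr_deriv ?_
  simp only [Function.comp]
  rcases lt_or_gt_of_ne hxc with h | h
  · rw [abs_of_neg h, sign_neg h]
    simp
    ring
  · rw [abs_of_pos h, sign_pos h]
    simp
    ring

theorem q_int (c α β : ℝ) : ∫ x in α..β, q (x + c) = |β + c| ^ 3 / 12 - |α + c| ^ 3 / 12 := by
  refine MeasureTheory.integral_eq_of_hasDerivAt_off_countable (fun x => |x + c| ^ 3 / 12) _
    (Set.countable_singleton (-c)) (Continuous.continuousOn (by fun_prop)) ?_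
    ((q_cont.comp (by fun_prop : Continuous fun x : ℝ => x + c)).intervalIntegrable _ _)
  intro x hx
  have hxc : x + c ≠ 0 := fun h => hx.2 (by simpa using eq_neg_of_add_eq_zero_left h)
  have h0 : HasDerivAt (fun x : ℝ => x + c) 1 x := (hasDerivAt_id x).add_const c
  have h1 := (hasDerivAt_abs hxc).comp x h0
  have h2 := (h1.pow 3).div_const 12
  refine h2.congr_deriv ?_
  simp only [Function.comp, q]
  rcases lt_or_gt_of_ne hxc with h | h
  · rw [abs_of_neg h, sign_neg h]
    simp
    ring
  · rw [abs_of_pos h, sign_pos h]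
    simp
    ring

theorem phi_int : ∫ u in (0:ℝ)..2, phi u = -1/12 := by
  have hc : ∀ c : ℝ, IntervalIntegrable (fun u => q (u + c)) volume 0 2 := fun c =>
    (q_cont.comp (by fun_prop : Continuous fun x : ℝ => x + c)).intervalIntegrable _ _
  have e : ∀ u : ℝ, phi u = q (u + 2) - 6 * q (u + 3/2) + 16 * q (u + 1) - 26 * q (u + 1/2)
      + 30 * q (u + 0) - 26 * q (u + -1/2) + 16 * q (u + -1) - 6 * q (u + -3/2) + q (u + -2) := by
    intro u
    unfold phi
    rw [show u - 1/2 = u + -1/2 by ring, show u - 1 = u + -1 by ring,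
      show u - 3/2 = u + -3/2 by ring, show u - 2 = u + -2 by ring, add_zero]
  simp only [e]
  have g1 := hc 2
  have g2 := (hc (3/2)).const_mul 6
  have g3 := (hc 1).const_mul 16
  have g4 := (hc (1/2)).const_mul 26
  have g5 := (hc 0).const_mul 30
  have g6 := (hc (-1/2)).const_mul 26
  have g7 := (hc (-1)).const_mul 16
  have g8 := (hc (-3/2)).const_mul 6
  have g9 := hc (-2)
  rw [intervalIntegral.integral_add (((((((g1.sub g2).add g3).sub g4).add g5).sub g6).add g7).sub g8) g9,
    intervalIntegral.integral_sub ((((((g1.sub g2).add g3).sub g4).add g5).sub g6).add g7) g8,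
    intervalIntegral.integral_add (((((g1.sub g2).add g3).sub g4).add g5).sub g6) g7,
    intervalIntegral.integral_sub ((((g1.sub g2).add g3).sub g4).add g5) g6,
    intervalIntegral.integral_add (((g1.sub g2).add g3).sub g4) g5,
    intervalIntegral.integral_sub ((g1.sub g2).add g3) g4,
    intervalIntegral.integral_add (g1.sub g2) g3,
    intervalIntegral.integral_sub g1 g2]
  simp only [intervalIntegral.integral_const_mul, q_int]
  norm_num [abs_of_pos, abs_of_neg, abs_of_nonneg]

/-! ### the convolutions -/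

open Helper912.Z (et ps)

/-- the primitive of `et` -/
def tau (x : ℝ) : ℝ := |x - 0| / 2 - 2 * (|x - 1/2| / 2) + |x - 1| / 2

theorem tau_cont : Continuous tau := by
  unfold tau
  fun_prop

theorem et_meas : Measurable et := by
  unfold Helper912.Z.et
  refine Measurable.ite ?_ measurable_const (Measurable.ite ?_ measurable_const measurable_const)
  · exact measurableSet_Ico
  · exact measurableSet_Ico

theorem et_abs (x : ℝ) : |et x| ≤ 1 := by
  unfold Helper912.Z.et
  split_ifs <;> simp

theorem ii_of_bdd (g : ℝ → ℝ) (hg : Measurable g) (K : ℝ) (hK : ∀ x, |g x| ≤ K) (α β : ℝ) :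
    IntervalIntegrable g volume α β := by
  rw [intervalIntegrable_iff]
  refine Measure.integrableOn_of_bounded (M := K) (by simp) hg.aestronglyMeasurable ?_
  exact Filter.Eventually.of_forall fun x => by simpa using hK x

theorem et_int (α β : ℝ) : ∫ x in α..β, et x = tau β - tau α := by
  refine MeasureTheory.integral_eq_of_hasDerivAt_off_countable tau et
    (s := {0, 1/2, 1}) (Set.Finite.countable (by simp)) tau_cont.continuousOn ?_
    (ii_of_bdd et et_meas 1 et_abs α β)
  intro x hx
  have hx2 := hx.2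
  simp only [mem_insert_iff, mem_singleton_iff, not_or] at hx2
  obtain ⟨n0, n1, n2⟩ := hx2
  have hd : ∀ c : ℝ, x ≠ c → HasDerivAt (fun x : ℝ => |x - c|) (SignType.sign (x - c) : ℝ) x := by
    intro c hc
    have h0 : HasDerivAt (fun x : ℝ => x - c) 1 x := (hasDerivAt_id x).sub_const c
    have hne : x - c ≠ 0 := sub_ne_zero.2 hc
    have h1 := (hasDerivAt_abs hne).comp x h0
    rw [mul_one] at h1
    exact h1
  have h := (((hd 0 n0).div_const 2).sub (((hd (1/2) n1).div_const 2).const_mul 2)).add
    ((hd 1 n2).div_const 2)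
  refine h.congr_deriv ?_
  unfold Helper912.Z.et
  rcases lt_or_gt_of_ne n0 with h0 | h0
  · rw [sign_neg (by linarith : x - 0 < 0), sign_neg (by linarith : x - 1/2 < 0),
      sign_neg (by linarith : x - 1 < 0), if_neg (by intro h; linarith [h.1]),
      if_neg (by intro h; linarith [h.1])]
    norm_num
  · rcases lt_or_gt_of_ne n1 with h1 | h1
    · rw [sign_pos (by linarith : 0 < x - 0), sign_neg (by linarith : x - 1/2 < 0),
        sign_neg (by linarith : x - 1 < 0), if_pos ⟨h0.le, h1⟩]
      norm_num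
    · rcases lt_or_gt_of_ne n2 with h2 | h2
      · rw [sign_pos (by linarith : 0 < x - 0), sign_pos (by linarith : 0 < x - 1/2),
          sign_neg (by linarith : x - 1 < 0), if_neg (by intro h; linarith [h.2]),
          if_pos ⟨h1.le, h2⟩]
        norm_num
      · rw [sign_pos (by linarith : 0 < x - 0), sign_pos (by linarith : 0 < x - 1/2),
          sign_pos (by linarith : 0 < x - 1), if_neg (by intro h; linarith [h.2]),
          if_neg (by intro h; linarith [h.2])]
        norm_num

theorem conv (g G : ℝ → ℝ) (hg : Measurable g) (K : ℝ) (hK : ∀ x, |g x| ≤ K)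
    (hG : ∀ α β : ℝ, ∫ x in α..β, g x = G β - G α) (w : ℝ) :
    ∫ a, et a * g (w - a) = G w - 2 * G (w - 1/2) + G (w - 1) := by
  have hm : Measurable fun a : ℝ => g (w - a) := hg.comp (by fun_prop)
  have e : ∀ a : ℝ, et a * g (w - a) = (Ico (0:ℝ) (1/2)).indicator (fun a => g (w - a)) a -
      (Ico (1/2:ℝ) 1).indicator (fun a => g (w - a)) a := by
    intro a
    unfold Helper912.Z.et
    by_cases h1 : 0 ≤ a ∧ a < 1/2
    · rw [if_pos h1, indicator_of_mem (by exact h1), indicator_of_notMem (by
        intro h; exact absurd h.1 (not_le.2 h1.2))]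
      ring
    · rw [if_neg h1]
      by_cases h2 : 1/2 ≤ a ∧ a < 1
      · rw [if_pos h2, indicator_of_notMem (by exact h1), indicator_of_mem (by exact h2)]
        ring
      · rw [if_neg h2, indicator_of_notMem (by exact h1), indicator_of_notMem (by exact h2)]
        ring
  have hi : ∀ α β : ℝ, Integrable ((Ico α β).indicator (fun a => g (w - a))) := by
    intro α β
    rw [integrable_indicator_iff measurableSet_Ico]
    refine Measure.integrableOn_of_bounded (M := K) (by simp) hm.aestronglyMeasurable ?_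
    exact Filter.Eventually.of_forall fun x => by simpa using hK _
  simp only [e]
  rw [integral_sub (hi _ _) (hi _ _), integral_indicator measurableSet_Ico,
    integral_indicator measurableSet_Ico, integral_Ico_eq_integral_Ioc,
    integral_Ico_eq_integral_Ioc, ← intervalIntegral.integral_of_le (by norm_num),
    ← intervalIntegral.integral_of_le (by norm_num),
    intervalIntegral.integral_comp_sub_left (fun x => g x) w,
    intervalIntegral.integral_comp_sub_left (fun x => g x) w, hG, hG]
  ring_nf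

/-- primitive of `tau` -/
def T1 (x : ℝ) : ℝ := q (x - 0) - 2 * q (x - 1/2) + q (x - 1)

theorem tau_int (α β : ℝ) : ∫ x in α..β, tau x = T1 β - T1 α := by
  unfold tau
  have hc : ∀ c : ℝ, IntervalIntegrable (fun x => |x - c| / 2) volume α β := fun c =>
    Continuous.intervalIntegrable (by fun_prop) _ _
  rw [intervalIntegral.integral_add ((hc 0).sub ((hc (1/2)).const_mul 2)) (hc 1),
    intervalIntegral.integral_sub (hc 0) ((hc (1/2)).const_mul 2),
    intervalIntegral.integral_const_mul, abs_int, abs_int, abs_int]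
  unfold T1
  ring

theorem tau_comp_int (c α β : ℝ) : ∫ x in α..β, tau (x - c) = T1 (β - c) - T1 (α - c) := by
  rw [intervalIntegral.integral_comp_sub_right (fun x => tau x) c, tau_int]

/-- `et * et` -/
def e2 (y : ℝ) : ℝ := tau y - 2 * tau (y - 1/2) + tau (y - 1)

theorem e2_cont : Continuous e2 := by
  have := tau_cont
  unfold e2
  fun_prop

/-- primitive of `e2` -/
def T2 (y : ℝ) : ℝ := T1 y - 2 * T1 (y - 1/2) + T1 (y - 1)

theorem e2_int (α β : ℝ) : ∫ x in α..β, e2 x = T2 β - T2 α := by
  unfold e2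
  have hc : ∀ c : ℝ, IntervalIntegrable (fun x => tau (x - c)) volume α β := fun c =>
    (tau_cont.comp (by fun_prop : Continuous fun x : ℝ => x - c)).intervalIntegrable _ _
  have h0 : IntervalIntegrable tau volume α β := tau_cont.intervalIntegrable _ _
  rw [intervalIntegral.integral_add (h0.sub ((hc (1/2)).const_mul 2)) (hc 1),
    intervalIntegral.integral_sub h0 ((hc (1/2)).const_mul 2),
    intervalIntegral.integral_const_mul, tau_int, tau_comp_int, tau_comp_int]
  unfold T2
  ring

theorem tau_abs (x : ℝ) : |tau x| ≤ 1 := by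
  unfold tau
  have h1 := abs_sub_abs_le_abs_sub (x - 0) (x - 1/2)
  have h2 := abs_sub_abs_le_abs_sub (x - 1/2) (x - 0)
  have h3 := abs_sub_abs_le_abs_sub (x - 1/2) (x - 1)
  have h4 := abs_sub_abs_le_abs_sub (x - 1) (x - 1/2)
  rw [show x - 0 - (x - 1/2) = 1/2 by ring] at h1
  rw [show x - 1/2 - (x - 0) = -(1/2) by ring] at h2
  rw [show x - 1/2 - (x - 1) = 1/2 by ring] at h3
  rw [show x - 1 - (x - 1/2) = -(1/2) by ring] at h4
  norm_num at h1 h2 h3 h4
  rw [abs_le]
  constructor <;> norm_num <;> linarith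

theorem e2_abs (x : ℝ) : |e2 x| ≤ 4 := by
  unfold e2
  have h1 := abs_le.1 (tau_abs x)
  have h2 := abs_le.1 (tau_abs (x - 1/2))
  have h3 := abs_le.1 (tau_abs (x - 1))
  rw [abs_le]
  constructor <;> linarith [h1.1, h1.2, h2.1, h2.2, h3.1, h3.2]

theorem ps_eq (w : ℝ) : ps w = T2 w - 2 * T2 (w - 1/2) + T2 (w - 1) := by
  have h1 : ∀ a : ℝ, ∫ b, et a * et b * et (w - a - b) = et a * e2 (w - a) := by
    intro a
    have h := conv et tau et_meas 1 et_abs et_int (w - a)
    simp only [mul_assoc]
    rw [integral_const_mul, h]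
    rfl
  unfold Helper912.Z.ps
  simp only [h1]
  exact conv e2 T2 e2_cont.measurable 4 e2_abs e2_int w

theorem phi_eq (u : ℝ) : Helper912.Z.phi u = phi u := by
  unfold Helper912.Z.phi phi
  rw [ps_eq, ps_eq]
  unfold T2 T1
  ring_nf

theorem Zphi_cont : Continuous Helper912.Z.phi := by
  have : Helper912.Z.phi = phi := funext phi_eq
  rw [this]; exact phi_cont

theorem Zphi_odd (u : ℝ) : Helper912.Z.phi (-u) = - Helper912.Z.phi u := by
  rw [phi_eq, phi_eq, phi_odd]

theorem Zphi_supp (u : ℝ) (hu : 2 ≤ |u|) : Helper912.Z.phi u = 0 := by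
  rw [phi_eq, phi_supp u hu]

theorem Zphi_int : ∫ u in (0:ℝ)..2, Helper912.Z.phi u = -1/12 := by
  have : Helper912.Z.phi = phi := funext phi_eq
  rw [this]; exact phi_int

theorem Zphi_int_ne : ∫ u in (0:ℝ)..2, Helper912.Z.phi u ≠ 0 := by
  rw [Zphi_int]; norm_num

theorem T1_cont : Continuous T1 := by
  have := q_cont
  unfold T1
  fun_prop

theorem ps_cont : Continuous ps := by
  have h : ps = fun w => T2 w - 2 * T2 (w - 1/2) + T2 (w - 1) := funext ps_eq
  have := T1_cont
  rw [h]
  unfold T2
  fun_prop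

theorem ps_meas : Measurable ps := ps_cont.measurable

theorem conv_abs (g : ℝ → ℝ) (hg : Measurable g) (K : ℝ) (hK : ∀ x, |g x| ≤ K) (w : ℝ) :
    |∫ a, et a * g (w - a)| ≤ K := by
  have hK0 : 0 ≤ K := (abs_nonneg _).trans (hK 0)
  have hi : Integrable ((Ico (0:ℝ) 1).indicator (fun _ => K)) := by
    rw [integrable_indicator_iff measurableSet_Ico]
    exact integrableOn_const (by simp)
  refine abs_integral_le_integral_abs.trans ?_
  have h1 : ∀ a : ℝ, |et a * g (w - a)| ≤ (Ico (0:ℝ) 1).indicator (fun _ => K) a := by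
    intro a
    by_cases ha : a ∈ Ico (0:ℝ) 1
    · rw [indicator_of_mem ha, abs_mul]
      exact (mul_le_mul (et_abs a) (hK _) (abs_nonneg _) zero_le_one).trans (by rw [one_mul])
    · rw [indicator_of_notMem ha]
      have : et a = 0 := by
        unfold Helper912.Z.et
        rw [mem_Ico, not_and_or, not_le, not_lt] at ha
        rcases ha with h | h
        · rw [if_neg (by intro h'; linarith [h'.1]), if_neg (by intro h'; linarith [h'.1])]
        · rw [if_neg (by intro h'; linarith [h'.2]), if_neg (by intro h'; linarith [h'.2])]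
      rw [this, zero_mul, abs_zero]
  refine (integral_mono_of_nonneg (Filter.Eventually.of_forall fun a => abs_nonneg _) hi
    (Filter.Eventually.of_forall h1)).trans ?_
  rw [integral_indicator measurableSet_Ico]
  simp

theorem ps_abs (w : ℝ) : |ps w| ≤ 1 := by
  have h1 : ∀ a : ℝ, ∫ b, et a * et b * et (w - a - b) = et a * e2 (w - a) := by
    intro a
    have h := conv et tau et_meas 1 et_abs et_int (w - a)
    simp only [mul_assoc]
    rw [integral_const_mul, h]
    rfl
  have h2 : ∀ y : ℝ, |e2 y| ≤ 1 := by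
    intro y
    have h := conv et tau et_meas 1 et_abs et_int y
    have h' := conv_abs et et_meas 1 et_abs y
    rw [h] at h'
    exact h'
  unfold Helper912.Z.ps
  simp only [h1]
  exact conv_abs e2 e2_cont.measurable 1 h2 w

theorem Zphi_abs (u : ℝ) : |Helper912.Z.phi u| ≤ 2 := by
  unfold Helper912.Z.phi
  have h1 := abs_le.1 (ps_abs (u + 2))
  have h2 := abs_le.1 (ps_abs (u + 1))
  rw [abs_le]
  constructor <;> linarith [h1.1, h1.2, h2.1, h2.2]

end Pool.Agent.Helper519.CTH
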